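import Mathlib

/-!
# A polygonal digraph of order nine with Laplacian spread one

The digraph has two pairs `{0,1}`, `{2,3}` joined by arcs in both directions, two pairs `{4,5}`,
`{6,7}` without arcs between them, and exactly one arc between any two other vertices; all
out-degrees are four.  Its restricted numerical range is the trapezoid with corners `4 ± i√5`,
`5 ± i`, which are eigenvalues.
-/

set_option autoImplicit false

namespace Pool.Agent.Results.MP_8a2148_co.OrderNine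

open Matrix Finset

open scoped Classical in
/-- The Laplacian `D - A` of the digraph with arcs `(i, j)`, `A i j`. -/
noncomputable def lap {n : ℕ} (A : Fin n → Fin n → Prop) : Matrix (Fin n) (Fin n) ℝ :=
  fun i j => (if i = j then ((univ.filter (fun k => A i k)).card : ℝ) else 0) -
    (if A i j then 1 else 0)

/-- The value `x* L x`. -/
noncomputable def qf {n : ℕ} (A : Fin n → Fin n → Prop) (x : Fin n → ℂ) : ℂ :=
  ∑ i, ∑ j, star (x i) * (lap A i j : ℂ) * x j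

/-- The restricted numerical range. -/
def Wr {n : ℕ} (A : Fin n → Fin n → Prop) : Set ℂ :=
  {z | ∃ x : Fin n → ℂ, ∑ i, x i = 0 ∧ ∑ i, ‖x i‖ ^ 2 = 1 ∧ z = qf A x}

/-- Restrictor matrices: the `n - 1` columns are orthonormal and orthogonal to the all-ones
vector. -/
def Restrictor {n : ℕ} (Q : Matrix (Fin n) (Fin (n - 1)) ℂ) : Prop :=
  Qᴴ * Q = 1 ∧ ∀ j, ∑ i, Q i j = 0

/-- Polygonal digraphs: the restricted numerical range is the convex hull of the eigenvalues of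
`Q* L Q` for every restrictor matrix `Q` (and there is a restrictor matrix). -/
def Polygonal {n : ℕ} (A : Fin n → Fin n → Prop) : Prop :=
  (∃ Q : Matrix (Fin n) (Fin (n - 1)) ℂ, Restrictor Q) ∧
  ∀ Q : Matrix (Fin n) (Fin (n - 1)) ℂ, Restrictor Q →
    Wr A = convexHull ℝ (spectrum ℂ (Qᴴ * (lap A).map (fun t : ℝ => (t : ℂ)) * Q))

/-- The values `xᵀ L x` for real unit vectors `x` orthogonal to the all-ones vector. -/
def realVals {n : ℕ} (A : Fin n → Fin n → Prop) : Set ℝ :=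
  {t | ∃ x : Fin n → ℝ, ∑ i, x i = 0 ∧ ∑ i, x i ^ 2 = 1 ∧ t = ∑ i, ∑ j, x i * lap A i j * x j}

/-- `α`. -/
noncomputable def alpha {n : ℕ} (A : Fin n → Fin n → Prop) : ℝ := sInf (realVals A)

/-- `β`. -/
noncomputable def beta {n : ℕ} (A : Fin n → Fin n → Prop) : ℝ := sSup (realVals A)

open scoped Classical in
/-- `d`-regular: all out-degrees and in-degrees are `d`. -/
def Regular {n : ℕ} (A : Fin n → Fin n → Prop) (d : ℕ) : Prop :=
  ∀ i, (univ.filter (fun k => A i k)).card = d ∧ (univ.filter (fun k => A k i)).card = d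

/-- The complement. -/
def compl {n : ℕ} (A : Fin n → Fin n → Prop) : Fin n → Fin n → Prop :=
  fun i j => i ≠ j ∧ ¬ A i j

/-! ### General facts on restrictor matrices -/

lemma exists_restrictor (n : ℕ) : ∃ Q : Matrix (Fin (n + 1)) (Fin n) ℂ,
    Qᴴ * Q = 1 ∧ ∀ j, ∑ i, Q i j = 0 := by
  have : Fact (Module.finrank ℂ (EuclideanSpace ℂ (Fin (n + 1))) = n + 1) := ⟨by simp⟩
  set e : EuclideanSpace ℂ (Fin (n + 1)) := WithLp.toLp 2 (fun _ => (1 : ℂ)) with he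
  have hne : e ≠ 0 := by
    intro h
    have h1 : e 0 = 0 := by rw [h]; rfl
    simp [he] at h1
  let b := OrthonormalBasis.fromOrthogonalSpanSingleton (𝕜 := ℂ) n hne
  refine ⟨Matrix.of (fun i j => (b j : EuclideanSpace ℂ (Fin (n + 1))) i), ?_, ?_⟩
  · ext i j
    have h1 := orthonormal_iff_ite.1 b.orthonormal i j
    rw [Matrix.mul_apply, Matrix.one_apply, ← h1]
    rw [Submodule.coe_inner, PiLp.inner_apply]
    apply Finset.sum_congr rfl
    intro k _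
    simp [Matrix.conjTranspose_apply, mul_comm]
  · intro j
    have h1 : inner ℂ e (b j : EuclideanSpace ℂ (Fin (n + 1))) = 0 :=
      Submodule.mem_orthogonal_singleton_iff_inner_right.1 (b j).2
    rw [PiLp.inner_apply] at h1
    simpa [he] using h1

lemma qq_mulVec {n : ℕ} (Q : Matrix (Fin (n + 1)) (Fin n) ℂ)
    (hQ : Qᴴ * Q = 1) (hQe : ∀ j, ∑ i, Q i j = 0) (x : Fin (n + 1) → ℂ) (hx : ∑ i, x i = 0) :
    Q *ᵥ (Qᴴ *ᵥ x) = x := by
  have hn : ((n : ℂ) + 1) ≠ 0 := by exact_mod_cast Nat.succ_ne_zero n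
  set V : Matrix (Fin n ⊕ Unit) (Fin (n + 1)) ℂ :=
    Matrix.of (fun k i => Sum.elim (fun j => star (Q i j)) (fun _ => 1 / ((n : ℂ) + 1)) k) with hV
  set U : Matrix (Fin (n + 1)) (Fin n ⊕ Unit) ℂ :=
    Matrix.of (fun i k => Sum.elim (fun j => Q i j) (fun _ => 1) k) with hU
  have hVU : V * U = 1 := by
    ext k l
    rw [Matrix.mul_apply, Matrix.one_apply]
    rcases k with k | k <;> rcases l with l | l
    · have := congrFun (congrFun hQ k) l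
      rw [Matrix.mul_apply, Matrix.one_apply] at this
      simpa [hV, hU, Matrix.conjTranspose_apply] using this
    · have h0 : ∑ i, star (Q i k) = 0 := by rw [← star_sum, hQe k, star_zero]
      simpa [hV, hU] using h0
    · have h0 := hQe l
      simp [hV, hU, ← Finset.mul_sum, h0]
    · simp [hV, hU, hn]
  have hUV : U * V = 1 := (Matrix.mul_eq_one_comm_of_card_eq _ _ _ (by simp)).1 hVU
  have h1 : (U * V) *ᵥ x = x := by rw [hUV, Matrix.one_mulVec]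
  rw [← Matrix.mulVec_mulVec] at h1
  conv_rhs => rw [← h1]
  ext i
  simp only [Matrix.mulVec, dotProduct, hU, hV, Matrix.of_apply, Fintype.sum_sum_type, Sum.elim_inl,
    Sum.elim_inr, Finset.univ_unique, Finset.sum_singleton, ← Finset.mul_sum, hx, mul_zero,
    add_zero, Matrix.conjTranspose_apply]

/-- The quadratic form through the entries. -/
lemma qf_eq {n : ℕ} (A : Fin n → Fin n → Prop) (x : Fin n → ℂ) :
    qf A x = star x ⬝ᵥ ((lap A).map (fun t : ℝ => (t : ℂ)) *ᵥ x) := by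
  simp only [qf, dotProduct, Matrix.mulVec, Matrix.map_apply, Finset.mul_sum, Pi.star_apply,
    mul_assoc]

lemma norm_sum_eq {n : ℕ} (x : Fin n → ℂ) :
    ((∑ i, ‖x i‖ ^ 2 : ℝ) : ℂ) = star x ⬝ᵥ x := by
  simp only [dotProduct, Pi.star_apply]
  push_cast
  apply Finset.sum_congr rfl
  intro i _
  rw [← Complex.conj_mul']
  rfl

lemma exists_eigvec {m : ℕ} (M : Matrix (Fin m) (Fin m) ℂ) (z : ℂ) :
    z ∈ spectrum ℂ M ↔ ∃ v : Fin m → ℂ, v ≠ 0 ∧ M *ᵥ v = z • v := by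
  rw [spectrum.mem_iff, Matrix.isUnit_iff_isUnit_det, isUnit_iff_ne_zero, not_not,
    ← Matrix.exists_mulVec_eq_zero_iff]
  constructor
  · rintro ⟨v, hv, h⟩
    refine ⟨v, hv, ?_⟩
    rw [Matrix.sub_mulVec, Algebra.algebraMap_eq_smul_one, Matrix.smul_mulVec, Matrix.one_mulVec,
      sub_eq_zero] at h
    exact h.symm
  · rintro ⟨v, hv, h⟩
    refine ⟨v, hv, ?_⟩
    rw [Matrix.sub_mulVec, Algebra.algebraMap_eq_smul_one, Matrix.smul_mulVec, Matrix.one_mulVec, h,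
      sub_self]

/-- Eigenvalues of `Q* L Q` lie in the restricted numerical range. -/
lemma spectrum_sub {n : ℕ} (A : Fin n → Fin n → Prop) (Q : Matrix (Fin n) (Fin (n - 1)) ℂ)
    (hQ : Restrictor Q) :
    spectrum ℂ (Qᴴ * (lap A).map (fun t : ℝ => (t : ℂ)) * Q) ⊆ Wr A := by
  intro z hz
  obtain ⟨v, hv, h⟩ := (exists_eigvec _ _).1 hz
  set N : ℝ := ∑ i, ‖v i‖ ^ 2 with hN
  have hN0 : 0 < N := by
    have hne : ∃ i, v i ≠ 0 := by
      by_contra hcon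
      push Not at hcon
      exact hv (funext hcon)
    obtain ⟨i, hi⟩ := hne
    have h1 : ‖v i‖ ^ 2 ≤ N := Finset.single_le_sum (f := fun i => ‖v i‖ ^ 2)
      (fun j _ => by positivity) (Finset.mem_univ i)
    have h2 : 0 < ‖v i‖ ^ 2 := by positivity
    linarith
  set c : ℝ := 1 / Real.sqrt N with hc
  have hc2 : c ^ 2 * N = 1 := by
    rw [hc, div_pow, Real.sq_sqrt hN0.le]; field_simp
  set y : Fin (n - 1) → ℂ := (c : ℂ) • v with hy
  have hyM : (Qᴴ * (lap A).map (fun t : ℝ => (t : ℂ)) * Q) *ᵥ y = z • y := by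
    rw [hy, Matrix.mulVec_smul, h, smul_comm]
  have hyy : star y ⬝ᵥ y = 1 := by
    have h1 : star v ⬝ᵥ v = (N : ℂ) := (norm_sum_eq v).symm
    have h2 : star y ⬝ᵥ y = ((c : ℂ) * (c : ℂ)) * (star v ⬝ᵥ v) := by
      simp only [hy, dotProduct, Pi.star_apply, Pi.smul_apply, smul_eq_mul, star_mul',
        Finset.mul_sum]
      apply Finset.sum_congr rfl
      intro i _
      have : star (c : ℂ) = (c : ℂ) := Complex.conj_ofReal c
      rw [this]; ring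
    rw [h2, h1]
    have : ((c ^ 2 * N : ℝ) : ℂ) = 1 := by rw [hc2]; norm_num
    rw [← this]; push_cast; ring
  have hstar : star (Q *ᵥ y) = (star y) ᵥ* Qᴴ := by
    rw [Matrix.star_mulVec]
  refine ⟨Q *ᵥ y, ?_, ?_, ?_⟩
  · simp only [Matrix.mulVec, dotProduct]
    rw [Finset.sum_comm]
    apply Finset.sum_eq_zero
    intro j _
    rw [← Finset.sum_mul, hQ.2 j, zero_mul]
  · have h1 := norm_sum_eq (Q *ᵥ y)
    rw [hstar, ← Matrix.dotProduct_mulVec, Matrix.mulVec_mulVec, hQ.1, Matrix.one_mulVec, hyy] at h1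
    exact_mod_cast h1
  · rw [qf_eq, hstar, ← Matrix.dotProduct_mulVec, Matrix.mulVec_mulVec, Matrix.mulVec_mulVec,
      hyM, dotProduct_smul, hyy, smul_eq_mul, mul_one]

/-- Eigenvectors of `L` orthogonal to the all-ones vector give eigenvalues of `Q* L Q`. -/
lemma mem_spectrum {n : ℕ} (A : Fin (n + 1) → Fin (n + 1) → Prop)
    (Q : Matrix (Fin (n + 1)) (Fin n) ℂ) (hQ : Qᴴ * Q = 1) (hQe : ∀ j, ∑ i, Q i j = 0)
    (x : Fin (n + 1) → ℂ) (hx0 : x ≠ 0) (hx : ∑ i, x i = 0) (z : ℂ)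
    (hxz : (lap A).map (fun t : ℝ => (t : ℂ)) *ᵥ x = z • x) :
    z ∈ spectrum ℂ (Qᴴ * (lap A).map (fun t : ℝ => (t : ℂ)) * Q) := by
  refine (exists_eigvec _ _).2 ⟨Qᴴ *ᵥ x, ?_, ?_⟩
  · intro h
    apply hx0
    rw [← qq_mulVec Q hQ hQe x hx, h, Matrix.mulVec_zero]
  · rw [Matrix.mul_assoc, ← Matrix.mulVec_mulVec, ← Matrix.mulVec_mulVec, qq_mulVec Q hQ hQe x hx,
      hxz, Matrix.mulVec_smul]

/-! ### The digraph -/

/-- The adjacency table. -/
def tab : Fin 9 → Fin 9 → ℤ :=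
  ![![0, 1, 1, 0, 1, 0, 1, 0, 0],
    ![1, 0, 0, 1, 1, 0, 1, 0, 0],
    ![0, 1, 0, 1, 0, 1, 0, 1, 0],
    ![1, 0, 1, 0, 0, 1, 0, 1, 0],
    ![0, 0, 1, 1, 0, 0, 1, 0, 1],
    ![1, 1, 0, 0, 0, 0, 0, 1, 1],
    ![0, 0, 1, 1, 0, 1, 0, 0, 1],
    ![1, 1, 0, 0, 1, 0, 0, 0, 1],
    ![1, 1, 1, 1, 0, 0, 0, 0, 0]]

/-- The digraph. -/
def G (i j : Fin 9) : Prop := tab i j = 1

lemma sum9 {M : Type*} [AddCommMonoid M] (f : Fin 9 → M) :
    ∑ i, f i = f 0 + f 1 + f 2 + f 3 + f 4 + f 5 + f 6 + f 7 + f 8 := by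
  rw [Fin.sum_univ_castSucc, Fin.sum_univ_eight]; rfl

lemma lapG (i j : Fin 9) : lap G i j = (if i = j then (4 : ℝ) else 0) - (tab i j : ℝ) := by
  have h1 : ∀ i, (univ.filter (fun k => tab i k = 1)).card = 4 := by decide
  have h2 : ∀ i j, tab i j = 0 ∨ tab i j = 1 := by decide
  classical
  unfold lap
  congr 1
  · split_ifs
    · have := h1 i
      have h3 : (Finset.card {k | G i k}) = 4 := by
        rw [← this]; unfold G; congr
      rw [h3]; norm_num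
    · rfl
  · unfold G
    rcases h2 i j with h | h <;> simp [h]

/-- The rows of the Laplacian. -/
def ll (a : Fin 9 → ℝ) : Fin 9 → ℝ :=
  ![4 * a 0 - a 1 - a 2 - a 4 - a 6,
    4 * a 1 - a 0 - a 3 - a 4 - a 6,
    4 * a 2 - a 1 - a 3 - a 5 - a 7,
    4 * a 3 - a 0 - a 2 - a 5 - a 7,
    4 * a 4 - a 2 - a 3 - a 6 - a 8,
    4 * a 5 - a 0 - a 1 - a 7 - a 8,
    4 * a 6 - a 2 - a 3 - a 5 - a 8,
    4 * a 7 - a 0 - a 1 - a 4 - a 8,
    4 * a 8 - a 0 - a 1 - a 2 - a 3]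

lemma ll_eq (a : Fin 9 → ℝ) (i : Fin 9) : ∑ j, lap G i j * a j = ll a i := by
  simp only [lapG]
  rw [sum9]
  fin_cases i <;> simp [tab, ll] <;> ring

lemma mulVec_eq (x : Fin 9 → ℂ) (i : Fin 9) :
    ((lap G).map (fun t : ℝ => (t : ℂ)) *ᵥ x) i =
      (ll (fun k => (x k).re) i : ℂ) + (ll (fun k => (x k).im) i : ℂ) * Complex.I := by
  rw [← ll_eq, ← ll_eq]
  simp only [Matrix.mulVec, dotProduct, Matrix.map_apply]
  push_cast
  rw [Finset.sum_mul, ← Finset.sum_add_distrib]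
  apply Finset.sum_congr rfl
  intro j _
  conv_lhs => rw [← Complex.re_add_im (x j)]
  ring

lemma qf_re (x : Fin 9 → ℂ) : (qf G x).re =
    ∑ i, ((x i).re * ll (fun k => (x k).re) i + (x i).im * ll (fun k => (x k).im) i) := by
  rw [qf_eq, dotProduct, Complex.re_sum]
  apply Finset.sum_congr rfl
  intro i _
  rw [mulVec_eq]
  simp

lemma qf_im (x : Fin 9 → ℂ) : (qf G x).im =
    ∑ i, ((x i).re * ll (fun k => (x k).im) i - (x i).im * ll (fun k => (x k).re) i) := by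
  rw [qf_eq, dotProduct, Complex.im_sum]
  apply Finset.sum_congr rfl
  intro i _
  rw [mulVec_eq]
  simp
  ring

lemma norm_eq (x : Fin 9 → ℂ) : ∑ i, ‖x i‖ ^ 2 = ∑ i, ((x i).re ^ 2 + (x i).im ^ 2) := by
  apply Finset.sum_congr rfl
  intro i _
  rw [← Complex.normSq_eq_norm_sq, Complex.normSq_apply]
  ring

lemma low (a b : Fin 9 → ℝ) (ha : ∑ i, a i = 0) (hb : ∑ i, b i = 0) :
    ∑ i, (a i * ll a i + b i * ll b i) - 4 * ∑ i, (a i ^ 2 + b i ^ 2) =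
    ((a 0 - a 1) ^ 2 + (b 0 - b 1) ^ 2 + (a 2 - a 3) ^ 2 + (b 2 - b 3) ^ 2) / 2 +
    ((a 4 + a 5 - a 6 - a 7) ^ 2 + (b 4 + b 5 - b 6 - b 7) ^ 2) / 4 +
    ((a 4 + a 5 + a 6 + a 7) ^ 2 + (b 4 + b 5 + b 6 + b 7) ^ 2) / 4 + (a 8 ^ 2 + b 8 ^ 2) / 2 := by
  rw [sum9] at ha hb
  have h1 : a 8 = -(a 0 + a 1 + a 2 + a 3 + a 4 + a 5 + a 6 + a 7) := by linarith
  have h2 : b 8 = -(b 0 + b 1 + b 2 + b 3 + b 4 + b 5 + b 6 + b 7) := by linarith
  simp only [sum9, ll, Matrix.cons_val]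
  rw [h1, h2]
  ring

lemma upp (a b : Fin 9 → ℝ) (ha : ∑ i, a i = 0) (hb : ∑ i, b i = 0) :
    5 * ∑ i, (a i ^ 2 + b i ^ 2) - ∑ i, (a i * ll a i + b i * ll b i) =
    ((a 0 + a 1 - a 2 - a 3) ^ 2 + (b 0 + b 1 - b 2 - b 3) ^ 2) / 4 +
    ((a 0 + a 1 + a 2 + a 3) ^ 2 + (b 0 + b 1 + b 2 + b 3) ^ 2) / 4 +
    ((a 4 - a 5) ^ 2 + (b 4 - b 5) ^ 2 + (a 6 - a 7) ^ 2 + (b 6 - b 7) ^ 2) / 2 +
    (a 8 ^ 2 + b 8 ^ 2) / 2 := by
  rw [sum9] at ha hb
  have h1 : a 8 = -(a 0 + a 1 + a 2 + a 3 + a 4 + a 5 + a 6 + a 7) := by linarith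
  have h2 : b 8 = -(b 0 + b 1 + b 2 + b 3 + b 4 + b 5 + b 6 + b 7) := by linarith
  simp only [sum9, ll, Matrix.cons_val]
  rw [h1, h2]
  ring

lemma ima (a b : Fin 9 → ℝ) (ha : ∑ i, a i = 0) (hb : ∑ i, b i = 0) :
    ∑ i, (a i * ll b i - b i * ll a i) =
    -(((a 0 + a 1 - a 2 - a 3) * (b 4 - b 5 + b 6 - b 7) -
        (b 0 + b 1 - b 2 - b 3) * (a 4 - a 5 + a 6 - a 7)) +
      ((a 4 - a 5) * (b 6 - b 7) - (b 4 - b 5) * (a 6 - a 7)) +
      ((a 0 - a 1) * (b 2 - b 3) - (b 0 - b 1) * (a 2 - a 3)) -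
      2 * ((a 4 + a 5 + a 6 + a 7) * (b 0 + b 1 + b 2 + b 3) -
        (b 4 + b 5 + b 6 + b 7) * (a 0 + a 1 + a 2 + a 3))) := by
  rw [sum9] at ha hb
  have h1 : a 8 = -(a 0 + a 1 + a 2 + a 3 + a 4 + a 5 + a 6 + a 7) := by linarith
  have h2 : b 8 = -(b 0 + b 1 + b 2 + b 3 + b 4 + b 5 + b 6 + b 7) := by linarith
  simp only [sum9, ll, Matrix.cons_val]
  rw [h1, h2]
  ring

/-! ### The trapezoid -/

lemma left_ineq (s p1 p2 h1 h2 g1 g2 : ℝ) (hs : s ^ 2 = 5) (hs0 : 0 ≤ s) :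
    |(p1 + h1 / 2) * g2 - (p2 + h2 / 2) * g1| ≤
      s / 4 * (p1 ^ 2 + p2 ^ 2 + h1 ^ 2 + h2 ^ 2 + g1 ^ 2 + g2 ^ 2) := by
  rw [abs_le]
  constructor
  · have e : s / 4 * (p1 ^ 2 + p2 ^ 2 + h1 ^ 2 + h2 ^ 2 + g1 ^ 2 + g2 ^ 2) +
        ((p1 + h1 / 2) * g2 - (p2 + h2 / 2) * g1) =
        s / 5 * ((p1 / 2 - h1) ^ 2 + (p2 / 2 - h2) ^ 2 + (p1 + h1 / 2 + s / 2 * g2) ^ 2 +
          (p2 + h2 / 2 - s / 2 * g1) ^ 2) := by
      linear_combination (-(1 / 5) * ((p1 + h1 / 2) * g2 - (p2 + h2 / 2) * g1) -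
        s / 20 * (g1 ^ 2 + g2 ^ 2)) * hs
    have : 0 ≤ s / 5 * ((p1 / 2 - h1) ^ 2 + (p2 / 2 - h2) ^ 2 + (p1 + h1 / 2 + s / 2 * g2) ^ 2 +
          (p2 + h2 / 2 - s / 2 * g1) ^ 2) := by positivity
    linarith
  · have e : s / 4 * (p1 ^ 2 + p2 ^ 2 + h1 ^ 2 + h2 ^ 2 + g1 ^ 2 + g2 ^ 2) -
        ((p1 + h1 / 2) * g2 - (p2 + h2 / 2) * g1) =
        s / 5 * ((p1 / 2 - h1) ^ 2 + (p2 / 2 - h2) ^ 2 + (p1 + h1 / 2 - s / 2 * g2) ^ 2 +
          (p2 + h2 / 2 + s / 2 * g1) ^ 2) := by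
      linear_combination ((1 / 5) * ((p1 + h1 / 2) * g2 - (p2 + h2 / 2) * g1) -
        s / 20 * (g1 ^ 2 + g2 ^ 2)) * hs
    have : 0 ≤ s / 5 * ((p1 / 2 - h1) ^ 2 + (p2 / 2 - h2) ^ 2 + (p1 + h1 / 2 - s / 2 * g2) ^ 2 +
          (p2 + h2 / 2 + s / 2 * g1) ^ 2) := by positivity
    linarith

lemma mid_ineq (p1 p2 t1 t2 : ℝ) :
    |2 * (t1 * p2 - t2 * p1)| ≤ (p1 ^ 2 + p2 ^ 2) / 2 + (t1 ^ 2 + t2 ^ 2) / 4 +
      3 / 2 * ((p1 + t1) ^ 2 + (p2 + t2) ^ 2) := by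
  rw [abs_le]
  constructor
  · nlinarith [sq_nonneg (p1 + (3 * t1 - 2 * t2) / 4), sq_nonneg (p2 + (3 * t2 + 2 * t1) / 4),
      sq_nonneg t1, sq_nonneg t2]
  · nlinarith [sq_nonneg (p1 + (3 * t1 + 2 * t2) / 4), sq_nonneg (p2 + (3 * t2 - 2 * t1) / 4),
      sq_nonneg t1, sq_nonneg t2]

lemma right_ineq (p1 p2 q1 q2 : ℝ) :
    |p1 * q2 - p2 * q1| ≤ (p1 ^ 2 + p2 ^ 2 + q1 ^ 2 + q2 ^ 2) / 2 := by
  rw [abs_le]
  constructor
  · nlinarith [sq_nonneg (p1 + q2), sq_nonneg (p2 - q1)]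
  · nlinarith [sq_nonneg (p1 - q2), sq_nonneg (p2 + q1)]

lemma core_ineq (s P P' S S' T T' c c' d d' u u' v v' z z' : ℝ) (hs : s ^ 2 = 5) (hs2 : 2 ≤ s) :
    |(P * (c' + d') - P' * (c + d)) + (c * d' - c' * d) + (u * v' - u' * v) -
      2 * (T * S' - T' * S)| ≤
    s * ((P ^ 2 + P' ^ 2) / 4 + (S ^ 2 + S' ^ 2) / 4 + (c ^ 2 + c' ^ 2 + d ^ 2 + d' ^ 2) / 2 +
      ((S + T) ^ 2 + (S' + T') ^ 2) / 2) +
    ((u ^ 2 + u' ^ 2 + v ^ 2 + v' ^ 2) / 2 + (z ^ 2 + z' ^ 2) / 4 + (T ^ 2 + T' ^ 2) / 4 +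
      ((S + T) ^ 2 + (S' + T') ^ 2) / 2) := by
  have L := left_ineq s P P' (c - d) (c' - d') (c + d) (c' + d') hs (by linarith)
  have M := mid_ineq S S' T T'
  have R := right_ineq u u' v v'
  have h0 : 0 ≤ (s - 2) * ((S ^ 2 + S' ^ 2) / 4 + ((S + T) ^ 2 + (S' + T') ^ 2) / 2) :=
    mul_nonneg (by linarith) (by positivity)
  have hZ : 0 ≤ (z ^ 2 + z' ^ 2) / 4 := by positivity
  have e1 : (P * (c' + d') - P' * (c + d)) + (c * d' - c' * d) =
      (P + (c - d) / 2) * (c' + d') - (P' + (c' - d') / 2) * (c + d) := by ring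
  have e2 : s / 4 * (P ^ 2 + P' ^ 2 + (c - d) ^ 2 + (c' - d') ^ 2 + (c + d) ^ 2 + (c' + d') ^ 2) =
      s * ((P ^ 2 + P' ^ 2) / 4 + (c ^ 2 + c' ^ 2 + d ^ 2 + d' ^ 2) / 2) := by ring
  rw [e2] at L
  rw [e1]
  set X := (P + (c - d) / 2) * (c' + d') - (P' + (c' - d') / 2) * (c + d) with hX
  set Y := u * v' - u' * v with hY
  set Z := 2 * (T * S' - T' * S) with hZd
  have h1 : |X + Y - Z| ≤ |X| + |Y| + |Z| := by
    calc |X + Y - Z| ≤ |X + Y| + |Z| := abs_sub _ _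
      _ ≤ |X| + |Y| + |Z| := by gcongr; exact abs_add_le _ _
  linarith

lemma im_bound (a b : Fin 9 → ℝ) (ha : ∑ i, a i = 0) (hb : ∑ i, b i = 0) (s : ℝ)
    (hs : s ^ 2 = 5) (hs2 : 2 ≤ s) :
    |∑ i, (a i * ll b i - b i * ll a i)| ≤
      s * (5 * ∑ i, (a i ^ 2 + b i ^ 2) - ∑ i, (a i * ll a i + b i * ll b i)) +
      (∑ i, (a i * ll a i + b i * ll b i) - 4 * ∑ i, (a i ^ 2 + b i ^ 2)) := by
  rw [ima a b ha hb, upp a b ha hb, low a b ha hb, abs_neg]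
  rw [sum9] at ha hb
  have h8 : a 8 = -(a 0 + a 1 + a 2 + a 3 + (a 4 + a 5 + a 6 + a 7)) := by linarith
  have h8' : b 8 = -(b 0 + b 1 + b 2 + b 3 + (b 4 + b 5 + b 6 + b 7)) := by linarith
  have key := core_ineq s (a 0 + a 1 - a 2 - a 3) (b 0 + b 1 - b 2 - b 3)
    (a 0 + a 1 + a 2 + a 3) (b 0 + b 1 + b 2 + b 3)
    (a 4 + a 5 + a 6 + a 7) (b 4 + b 5 + b 6 + b 7)
    (a 4 - a 5) (b 4 - b 5) (a 6 - a 7) (b 6 - b 7)
    (a 0 - a 1) (b 0 - b 1) (a 2 - a 3) (b 2 - b 3)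
    (a 4 + a 5 - a 6 - a 7) (b 4 + b 5 - b 6 - b 7) hs hs2
  rw [h8, h8', neg_sq, neg_sq]
  have e1 : b 4 - b 5 + b 6 - b 7 = (b 4 - b 5) + (b 6 - b 7) := by ring
  have e2 : a 4 - a 5 + a 6 - a 7 = (a 4 - a 5) + (a 6 - a 7) := by ring
  rw [e1, e2]
  exact key

/-- The trapezoid with corners `4 ± i√5`, `5 ± i`. -/
def trap : Set ℂ := {z | 4 ≤ z.re ∧ z.re ≤ 5 ∧ |z.im| ≤ Real.sqrt 5 * (5 - z.re) + (z.re - 4)}

lemma sqrt5_sq : Real.sqrt 5 ^ 2 = 5 := Real.sq_sqrt (by norm_num)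

lemma two_le_sqrt5 : 2 ≤ Real.sqrt 5 := by
  rw [show (2 : ℝ) = Real.sqrt (2 ^ 2) by rw [Real.sqrt_sq (by norm_num)]]
  exact Real.sqrt_le_sqrt (by norm_num)

lemma Wr_sub : Wr G ⊆ trap := by
  rintro z ⟨x, hx, hn, rfl⟩
  have ha : ∑ i, (x i).re = 0 := by rw [← Complex.re_sum, hx]; rfl
  have hb : ∑ i, (x i).im = 0 := by rw [← Complex.im_sum, hx]; rfl
  have hlow := low (fun k => (x k).re) (fun k => (x k).im) ha hb
  have hupp := upp (fun k => (x k).re) (fun k => (x k).im) ha hb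
  have him := im_bound (fun k => (x k).re) (fun k => (x k).im) ha hb _ sqrt5_sq two_le_sqrt5
  rw [norm_eq] at hn
  simp only [hn] at hlow hupp him
  refine ⟨?_, ?_, ?_⟩
  · rw [qf_re]
    have : 0 ≤ ∑ i, ((x i).re * ll (fun k => (x k).re) i + (x i).im * ll (fun k => (x k).im) i) -
        4 * 1 := by rw [hlow]; positivity
    linarith
  · rw [qf_re]
    have : 0 ≤ 5 * 1 - ∑ i, ((x i).re * ll (fun k => (x k).re) i +
        (x i).im * ll (fun k => (x k).im) i) := by rw [hupp]; positivity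
    linarith
  · rw [qf_re, qf_im]
    simpa using him

lemma trap_convex : Convex ℝ trap := by
  intro z hz w hw a b ha hb hab
  obtain ⟨z1, z2, z3⟩ := hz
  obtain ⟨w1, w2, w3⟩ := hw
  have hre : (a • z + b • w).re = a * z.re + b * w.re := by simp
  have him : (a • z + b • w).im = a * z.im + b * w.im := by simp
  refine ⟨?_, ?_, ?_⟩
  · rw [hre]; nlinarith
  · rw [hre]; nlinarith
  · rw [hre, him]
    have h1 : |a * z.im + b * w.im| ≤ a * |z.im| + b * |w.im| := by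
      calc |a * z.im + b * w.im| ≤ |a * z.im| + |b * w.im| := abs_add_le _ _
        _ = a * |z.im| + b * |w.im| := by rw [abs_mul, abs_mul, abs_of_nonneg ha, abs_of_nonneg hb]
    have h2 := mul_le_mul_of_nonneg_left z3 ha
    have h3 := mul_le_mul_of_nonneg_left w3 hb
    have hb' : b = 1 - a := by linarith
    subst hb'
    linarith

/-- The corners. -/
noncomputable def cor : Fin 4 → ℂ :=
  ![⟨4, -Real.sqrt 5⟩, ⟨4, Real.sqrt 5⟩, ⟨5, -1⟩, ⟨5, 1⟩]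

lemma weights (z : ℂ) (hz : z ∈ trap) : ∃ w : Fin 4 → ℝ, (∀ k, 0 ≤ w k) ∧ ∑ k, w k = 1 ∧
    z.re = 4 * (w 0 + w 1) + 5 * (w 2 + w 3) ∧
    z.im = Real.sqrt 5 * (w 1 - w 0) + (w 3 - w 2) := by
  obtain ⟨z1, z2, z3⟩ := hz
  have hs := two_le_sqrt5
  set s := Real.sqrt 5
  set u := z.re - 4 with hu
  have hden : 0 < s * (1 - u) + u := by
    rcases le_or_gt u (1 / 2) with h | h
    · nlinarith
    · nlinarith
  set t := z.im / (s * (1 - u) + u) with ht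
  have htim : z.im = t * (s * (1 - u) + u) := by rw [ht]; field_simp
  have ht1 : |t| ≤ 1 := by
    rw [ht, abs_div, abs_of_pos hden, div_le_one hden]
    have : s * (5 - z.re) + (z.re - 4) = s * (1 - u) + u := by rw [hu]; ring
    linarith
  rw [abs_le] at ht1
  refine ⟨![(1 - u) * ((1 - t) / 2), (1 - u) * ((1 + t) / 2), u * ((1 - t) / 2),
    u * ((1 + t) / 2)], ?_, ?_, ?_, ?_⟩
  · intro k
    fin_cases k
    · exact mul_nonneg (by linarith) (by linarith)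
    · exact mul_nonneg (by linarith) (by linarith)
    · exact mul_nonneg (by linarith) (by linarith)
    · exact mul_nonneg (by linarith) (by linarith)
  · simp [Fin.sum_univ_four]; ring
  · simp; rw [hu]; ring
  · simp; rw [htim]; ring

lemma trap_sub_hull : trap ⊆ convexHull ℝ (Set.range cor) := by
  intro z hz
  obtain ⟨w, hw0, hw1, hre, him⟩ := weights z hz
  have hzz : z = ∑ k, w k • cor k := by
    apply Complex.ext
    · rw [hre]; simp [Fin.sum_univ_four, cor]; ring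
    · rw [him]; simp [Fin.sum_univ_four, cor]; ring
  rw [hzz]
  exact (convex_convexHull ℝ _).sum_mem (fun k _ => hw0 k) hw1
    (fun k _ => subset_convexHull ℝ _ ⟨k, rfl⟩)

/-- A vector built from four real parameters. -/
noncomputable def vec (t : Fin 4 → ℝ) : Fin 9 → ℂ :=
  ![⟨2 * (t 0 + t 1) + (t 2 + t 3), 0⟩, ⟨2 * (t 0 + t 1) - (t 2 + t 3), 0⟩,
    ⟨-2 * (t 0 + t 1), t 2 - t 3⟩, ⟨-2 * (t 0 + t 1), -(t 2 - t 3)⟩,
    ⟨t 0 + t 1, Real.sqrt 5 * (t 0 - t 1)⟩, ⟨-(t 0 + t 1), -(Real.sqrt 5 * (t 0 - t 1))⟩,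
    ⟨-(t 0 + t 1), Real.sqrt 5 * (t 0 - t 1)⟩, ⟨t 0 + t 1, -(Real.sqrt 5 * (t 0 - t 1))⟩,
    ⟨0, 0⟩]

lemma vec_sum (t : Fin 4 → ℝ) : ∑ i, vec t i = 0 := by
  rw [sum9]
  apply Complex.ext
  · simp [vec]
  · simp [vec]

lemma vec_norm (t : Fin 4 → ℝ) :
    ∑ i, ‖vec t i‖ ^ 2 = 40 * (t 0 ^ 2 + t 1 ^ 2) + 4 * (t 2 ^ 2 + t 3 ^ 2) := by
  rw [norm_eq, sum9]
  simp [vec]
  linear_combination (4 * (t 0 - t 1) ^ 2) * sqrt5_sq

lemma vec_re (t : Fin 4 → ℝ) :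
    (qf G (vec t)).re = 4 * (40 * (t 0 ^ 2 + t 1 ^ 2)) + 5 * (4 * (t 2 ^ 2 + t 3 ^ 2)) := by
  rw [qf_re, sum9]
  simp [vec, ll]
  linear_combination (16 * (t 0 - t 1) ^ 2) * sqrt5_sq

lemma vec_im (t : Fin 4 → ℝ) :
    (qf G (vec t)).im = Real.sqrt 5 * (40 * t 1 ^ 2 - 40 * t 0 ^ 2) +
      (4 * t 3 ^ 2 - 4 * t 2 ^ 2) := by
  rw [qf_im, sum9]
  simp [vec, ll]
  ring

lemma trap_sub_Wr : trap ⊆ Wr G := by
  intro z hz
  obtain ⟨w, hw0, hw1, hre, him⟩ := weights z hz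
  rw [Fin.sum_univ_four] at hw1
  set t : Fin 4 → ℝ := ![Real.sqrt (w 0 / 40), Real.sqrt (w 1 / 40), Real.sqrt (w 2 / 4),
    Real.sqrt (w 3 / 4)] with ht
  have t0 : t 0 ^ 2 = w 0 / 40 := Real.sq_sqrt (by have := hw0 0; positivity)
  have t1 : t 1 ^ 2 = w 1 / 40 := Real.sq_sqrt (by have := hw0 1; positivity)
  have t2 : t 2 ^ 2 = w 2 / 4 := Real.sq_sqrt (by have := hw0 2; positivity)
  have t3 : t 3 ^ 2 = w 3 / 4 := Real.sq_sqrt (by have := hw0 3; positivity)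
  refine ⟨vec t, vec_sum t, ?_, ?_⟩
  · rw [vec_norm, t0, t1, t2, t3]; linarith
  · apply Complex.ext
    · rw [hre, vec_re, t0, t1, t2, t3]; ring
    · rw [him, vec_im, t0, t1, t2, t3]; ring

lemma cor_eig (k : Fin 4) : ∃ x : Fin 9 → ℂ, x ≠ 0 ∧ ∑ i, x i = 0 ∧
    (lap G).map (fun t : ℝ => (t : ℂ)) *ᵥ x = cor k • x := by
  have s5 : Real.sqrt 5 * Real.sqrt 5 = 5 := Real.mul_self_sqrt (by norm_num)
  fin_cases k
  · refine ⟨vec ![1, 0, 0, 0], ?_, vec_sum _, ?_⟩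
    · intro h
      have := congrArg Complex.re (congrFun h 0)
      simp [vec] at this
    · ext i
      rw [mulVec_eq]
      fin_cases i <;> apply Complex.ext <;> simp [vec, ll, cor] <;> linarith
  · refine ⟨vec ![0, 1, 0, 0], ?_, vec_sum _, ?_⟩
    · intro h
      have := congrArg Complex.re (congrFun h 0)
      simp [vec] at this
    · ext i
      rw [mulVec_eq]
      fin_cases i <;> apply Complex.ext <;> simp [vec, ll, cor] <;> linarith
  · refine ⟨vec ![0, 0, 1, 0], ?_, vec_sum _, ?_⟩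
    · intro h
      have := congrArg Complex.re (congrFun h 0)
      simp [vec] at this
    · ext i
      rw [mulVec_eq]
      fin_cases i <;> apply Complex.ext <;> simp [vec, ll, cor] <;> linarith
  · refine ⟨vec ![0, 0, 0, 1], ?_, vec_sum _, ?_⟩
    · intro h
      have := congrArg Complex.re (congrFun h 0)
      simp [vec] at this
    · ext i
      rw [mulVec_eq]
      fin_cases i <;> apply Complex.ext <;> simp [vec, ll, cor] <;> linarith

lemma polygonal : Polygonal G := by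
  refine ⟨exists_restrictor 8, ?_⟩
  intro Q hQ
  apply Set.Subset.antisymm
  · refine Wr_sub.trans (trap_sub_hull.trans (convexHull_mono ?_))
    rintro _ ⟨k, rfl⟩
    obtain ⟨x, hx0, hx, hxz⟩ := cor_eig k
    exact mem_spectrum G Q hQ.1 hQ.2 x hx0 hx _ hxz
  · exact (convexHull_min ((spectrum_sub G Q hQ).trans Wr_sub) trap_convex).trans trap_sub_Wr

lemma real_complex (x : Fin 9 → ℝ) :
    ∑ i, ∑ j, x i * lap G i j * x j = (qf G (fun i => (x i : ℂ))).re := by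
  rw [qf_re]
  simp only [Complex.ofReal_re, Complex.ofReal_im, zero_mul, add_zero]
  apply Finset.sum_congr rfl
  intro i _
  rw [← ll_eq, Finset.mul_sum]
  apply Finset.sum_congr rfl
  intro j _
  ring

lemma realVals_bounds {t : ℝ} (ht : t ∈ realVals G) : 4 ≤ t ∧ t ≤ 5 := by
  obtain ⟨x, hx, hn, rfl⟩ := ht
  have h1 : qf G (fun i => (x i : ℂ)) ∈ trap := by
    apply Wr_sub
    refine ⟨fun i => (x i : ℂ), ?_, ?_, rfl⟩
    · rw [← Complex.ofReal_sum, hx]; rfl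
    · rw [← hn]; simp
  rw [real_complex]
  exact ⟨h1.1, h1.2.1⟩

lemma isLeast : IsLeast (realVals G) 4 := by
  obtain ⟨r, hr⟩ : ∃ r : ℝ, r * r = 1 / 2 := ⟨Real.sqrt (1 / 2), Real.mul_self_sqrt (by norm_num)⟩
  refine ⟨⟨![0, 0, 0, 0, r, -r, 0, 0, 0], ?_, ?_, ?_⟩,
    fun t ht => (realVals_bounds ht).1⟩
  · rw [sum9]; simp
  · rw [sum9]; simp; linarith
  · rw [real_complex, qf_re, sum9]
    simp [ll]
    linarith

lemma isGreatest : IsGreatest (realVals G) 5 := by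
  obtain ⟨r, hr⟩ : ∃ r : ℝ, r * r = 1 / 2 := ⟨Real.sqrt (1 / 2), Real.mul_self_sqrt (by norm_num)⟩
  refine ⟨⟨![r, -r, 0, 0, 0, 0, 0, 0, 0], ?_, ?_, ?_⟩,
    fun t ht => (realVals_bounds ht).2⟩
  · rw [sum9]; simp
  · rw [sum9]; simp; linarith
  · rw [real_complex, qf_re, sum9]
    simp [ll]
    linarith

lemma spread : beta G - alpha G = 1 := by
  unfold beta alpha
  rw [isLeast.csInf_eq, isGreatest.csSup_eq]
  norm_num

lemma not_regular (d : ℕ) : ¬ Regular G d := by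
  classical
  intro h
  have h1 : (univ.filter (fun k => tab 0 k = 1)).card = 4 := by decide
  have h2 : (univ.filter (fun k => tab k 0 = 1)).card = 5 := by decide
  obtain ⟨h3, h4⟩ := h 0
  have h5 : (Finset.card {k | G 0 k}) = 4 := by rw [← h1]; unfold G; congr
  have h6 : (Finset.card {k | G k 0}) = 5 := by rw [← h2]; unfold G; congr
  have h7 : d = 4 := by rw [← h3]; convert h5
  have h8 : d = 5 := by rw [← h4]; convert h6
  omega

lemma not_regular_compl (d : ℕ) : ¬ Regular (compl G) d := by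
  classical
  intro h
  have h1 : (univ.filter (fun k => (0 : Fin 9) ≠ k ∧ ¬ tab 0 k = 1)).card = 4 := by decide
  have h2 : (univ.filter (fun k => k ≠ (0 : Fin 9) ∧ ¬ tab k 0 = 1)).card = 3 := by decide
  obtain ⟨h3, h4⟩ := h 0
  have h5 : (Finset.card {k | compl G 0 k}) = 4 := by rw [← h1]; unfold compl G; congr
  have h6 : (Finset.card {k | compl G k 0}) = 3 := by rw [← h2]; unfold compl G; congr
  have h7 : d = 4 := by rw [← h3]; convert h5
  have h8 : d = 3 := by rw [← h4]; convert h6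
  omega

/-- There is a polygonal digraph of order nine with `α = 4` and `β = 5` (so Laplacian spread
one) such that neither it nor its complement is regular; and the statement of Q1 is false. -/
theorem result :
    (∃ A : Fin 9 → Fin 9 → Prop, (∀ i, ¬ A i i) ∧ Polygonal A ∧ IsLeast (realVals A) 4 ∧
      IsGreatest (realVals A) 5 ∧ ∀ d : ℕ, ¬ Regular A d ∧ ¬ Regular (compl A) d) ∧
    ¬ ∀ (n : ℕ) (_ : 2 ≤ n) (A : Fin n → Fin n → Prop), (∀ i, ¬ A i i) → Polygonal A →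
      beta A - alpha A = 1 →
      Even n ∧ 4 ≤ n ∧ (Regular A ((n - 2) / 2) ∨ Regular (compl A) ((n - 2) / 2)) := by
  have hG : ∀ i, ¬ G i i := by
    have h : ∀ i, ¬ tab i i = 1 := by decide
    exact h
  refine ⟨⟨G, hG, polygonal, isLeast, isGreatest, fun d => ⟨not_regular d, not_regular_compl d⟩⟩,
    ?_⟩
  intro h
  obtain ⟨h1, -, -⟩ := h 9 (by norm_num) G hG polygonal spread
  exact absurd h1 (by decide)

end Pool.Agent.Results.MP_8a2148_co.OrderNine
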